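import Mathlib

namespace Pool.Agent.H.MP_6a261b_co

open Finset

structure Sys (E : Type) where
  lo : E → ℕ
  hi : E → ℕ
  sg : E → ℕ → ℤ
  lt : ∀ e, lo e < hi e
  z1 : ∀ e, sg e (lo e) = 0
  z2 : ∀ e, sg e (hi e) = 0
  pm : ∀ e v, lo e < v → v < hi e → sg e v = 1 ∨ sg e v = -1

namespace Sys
variable {E : Type} (D : Sys E)

def Lt (e f : E) (v : ℕ) : Prop :=
  D.lo e ≤ v ∧ v ≤ D.hi e ∧ D.lo f ≤ v ∧ v ≤ D.hi f ∧ D.sg e v < D.sg f v

def Sib (n : ℕ) (e f : E) : Prop := D.lo e = D.lo f ∧ min (D.hi e) n = min (D.hi f) n ∧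
  ∀ v < n, D.lo e ≤ v → v ≤ D.hi e → D.sg e v = D.sg f v

def Alt (n M : ℕ) (e f : E) : Prop := ∃ a : ℕ → ℕ, (∀ i, i + 1 < M → a i < a (i + 1)) ∧
  ∀ i < M, a i < n ∧ if Even i then D.Lt e f (a i) else D.Lt f e (a i)

def Ok (n M : ℕ) (F : Finset E) : Prop := (∀ e ∈ F, D.lo e < n) ∧
  (∀ e ∈ F, ∀ f ∈ F, D.Sib n e f → e = f) ∧ ∀ e ∈ F, ∀ f ∈ F, ¬ D.Alt n M e f

variable {D} {n M : ℕ} {F : Finset E}

theorem Sib.symm {e f : E} (h : D.Sib n e f) : D.Sib n f e :=
  ⟨h.1.symm, h.2.1.symm, fun v h1 h2 h3 =>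
    (h.2.2 v h1 (h.1 ▸ h2) (by have := h.2.1; omega)).symm⟩

theorem Sib.refl (e : E) : D.Sib n e e := ⟨rfl, rfl, fun _ _ _ _ => rfl⟩

theorem Sib.lt {e f e' f' : E} (h : D.Sib n e e') (h' : D.Sib n f f') {v : ℕ} (hv : v < n)
    (l : D.Lt e f v) : D.Lt e' f' v := by
  obtain ⟨a, b, c, d, l⟩ := l
  have := h.1; have := h'.1; have := h.2.1; have := h'.2.1
  rw [h.2.2 v hv a b, h'.2.2 v hv c d] at l
  exact ⟨by omega, by omega, by omega, by omega, l⟩

theorem Sib.succ {e f : E} (h : D.Sib n e f) (he : D.lo e < n)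
    (h1 : n ≤ D.hi e → D.sg e n = D.sg f n) : D.Sib (n + 1) e f := by
  have a := h.1
  have b := h.2.1
  refine ⟨a, ?_, fun v h2 h3 h4 => ?_⟩
  · by_cases c : n ≤ D.hi e
    · have d := h1 c
      have e1 := D.z2 e
      have e2 := D.z2 f
      have e3 := D.pm e n he
      have e4 := D.pm f n (by omega)
      by_cases p : D.hi e = n <;> by_cases q : D.hi f = n
      · omega
      · rw [p] at e1; omega
      · rw [q] at e2; omega
      · omega
    · omega
  · by_cases c : v = n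
    · rw [c] at h4 ⊢; exact h1 h4
    · exact h.2.2 v (by omega) h3 h4

theorem Alt.snoc {e f e' f' : E} (h : D.Alt n M e f) (s : D.Sib n e e') (s' : D.Sib n f f')
    (l : if Even M then D.Lt e' f' n else D.Lt f' e' n) : D.Alt (n + 1) (M + 1) e' f' := by
  obtain ⟨a, a1, a2⟩ := h
  refine ⟨fun i => if i < M then a i else n, fun i hi => ?_, fun i hi => ?_⟩
  · have := (a2 i (by omega)).1
    have := a1 i
    simp only
    split_ifs <;> omega
  · by_cases c : i < M
    · obtain ⟨b1, b2⟩ := a2 i c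
      simp only [if_pos c]
      refine ⟨by omega, ?_⟩
      split_ifs at b2 ⊢
      · exact s.lt s' b1 b2
      · exact s'.lt s b1 b2
    · obtain rfl : i = M := by omega
      simp only [if_neg c]
      exact ⟨by omega, l⟩

theorem peel (h : D.Ok (n + 1) (M + 1) F) : ∃ R G₁ G₂ : Finset E, R ⊆ F ∧ D.Ok n (M + 1) R ∧
    D.Ok n M G₁ ∧ D.Ok n M G₂ ∧ (∀ e ∈ G₁, n ≤ D.hi e) ∧ (∀ e ∈ G₂, e ∈ F ∧ n = D.hi e) ∧
      #F ≤ 1 + #R + #G₁ + #G₂ := by
  classical
  obtain ⟨h1, h2, h3⟩ := h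
  set G : ℤ → Finset E := fun c =>
    {e ∈ F | D.lo e < n ∧ D.sg e n = c ∧ ∃ f ∈ F, D.Sib n e f ∧ D.Lt e f n} with hG
  have okG : ∀ c, D.Ok n M (G c) := fun c => by
    simp only [hG, Ok, mem_filter]
    refine ⟨fun e he => he.2.1, fun e he f hf s => h2 e he.1 f hf.1
      (s.succ he.2.1 fun _ => he.2.2.1.trans hf.2.2.1.symm), ?_⟩
    rintro e ⟨e1, e2, e3, e', e4, e5, e6⟩ f ⟨f1, f2, f3, f', f4, f5, f6⟩ al
    by_cases c : Even M
    · refine h3 e e1 f' f4 (al.snoc (.refl e) f5 ?_)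
      rw [if_pos c]
      exact ⟨e6.1, e6.2.1, f6.2.2.1, f6.2.2.2.1, by rw [e3, ← f3]; exact f6.2.2.2.2⟩
    · refine h3 e' e4 f f1 (al.snoc e5 (.refl f) ?_)
      rw [if_neg c]
      exact ⟨f6.1, f6.2.1, e6.2.2.1, e6.2.2.2.1, by rw [f3, ← e3]; exact e6.2.2.2.2⟩
  refine ⟨{e ∈ F | D.lo e < n ∧ ¬ ∃ f ∈ F, D.Sib n e f ∧ D.Lt e f n}, G (-1), G 0,
    filter_subset _ _, ⟨fun e he => (mem_filter.1 he).2.1, fun e he f hf s => ?_,
    fun e he f hf ⟨a, a1, a2⟩ => h3 e (mem_filter.1 he).1 f (mem_filter.1 hf).1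
      ⟨a, a1, fun i hi => ⟨by have := (a2 i hi).1; omega, (a2 i hi).2⟩⟩⟩, okG _, okG _, ?_, ?_, ?_⟩
  · obtain ⟨e1, e2, e3⟩ := mem_filter.1 he
    obtain ⟨f1, f2, f3⟩ := mem_filter.1 hf
    refine h2 e e1 f f1 (s.succ e2 fun c => ?_)
    have c' : n ≤ D.hi f := by have := s.2.1; omega
    exact le_antisymm (not_lt.1 fun l => f3 ⟨e, e1, s.symm, f2.le, c', e2.le, c, l⟩)
      (not_lt.1 fun l => e3 ⟨f, f1, s, e2.le, c, f2.le, c', l⟩)
  · intro e he
    obtain ⟨-, -, -, f, -, -, l⟩ := mem_filter.1 he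
    exact l.2.1
  · intro e he
    obtain ⟨e1, e2, e3, f, -, -, l⟩ := mem_filter.1 he
    have := l.2.1
    have := D.pm e n e2
    exact ⟨e1, by omega⟩
  · have c1 : #{e ∈ F | D.lo e = n} ≤ 1 := card_le_one.2 fun e he f hf => by
      obtain ⟨e1, e2⟩ := mem_filter.1 he
      obtain ⟨f1, f2⟩ := mem_filter.1 hf
      have := D.lt e
      have := D.lt f
      refine h2 e e1 f f1 ⟨by omega, by omega, fun v v1 v2 _ => ?_⟩
      rw [show v = D.lo e by omega, D.z1, e2, ← f2, D.z1]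
    refine le_trans (card_le_card (t := {e ∈ F | D.lo e = n} ∪ _ ∪ G (-1) ∪ G 0) fun e he => ?_)
      ((card_union_le _ _).trans (Nat.add_le_add_right ((card_union_le _ _).trans
        (Nat.add_le_add_right ((card_union_le _ _).trans (Nat.add_le_add_right c1 _)) _)) _))
    have := h1 e he
    simp only [mem_union, mem_filter, hG, he, true_and]
    by_cases c : D.lo e = n
    · exact Or.inl (Or.inl (Or.inl c))
    have c' : D.lo e < n := by omega
    by_cases d : ∃ f ∈ F, D.Sib n e f ∧ D.Lt e f n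
    · simp only [d, c', and_true, true_and, c, not_true_eq_false, false_or]
      obtain ⟨f, -, s, -, l1, -, l2, l3⟩ := d
      have e1 := D.z2 e
      have e2 := D.z2 f
      have e3 := D.pm e n c'
      have e4 := D.pm f n (s.1 ▸ c')
      by_cases p : D.hi e = n <;> by_cases q : D.hi f = n
      · rw [p] at e1; omega
      · rw [p] at e1; omega
      · rw [q] at e2; omega
      · omega
    · exact Or.inl (Or.inl (Or.inr ⟨c', d⟩))

theorem opn (n : ℕ) : ∀ (M : ℕ) (F : Finset E), D.Ok n (M + 1) F → (∀ e ∈ F, n ≤ D.hi e) →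
    #F + 1 ≤ 2 * ∑ j ∈ range (M + 1), n.choose j := by
  induction n with
  | zero =>
    intro M F h _
    rw [eq_empty_of_forall_notMem fun e he => Nat.not_lt_zero _ (h.1 e he), sum_range_succ']
    simp
  | succ n ih =>
    intro M F h ho
    rcases M with _ | M
    · have : #F ≤ 1 := card_le_one.2 fun e he f hf => by
        have key : ∀ e ∈ F, ∀ f ∈ F, ∀ v < n + 1, D.lo e ≤ v → D.lo f ≤ v →
            D.sg f v ≤ D.sg e v := fun e he f hf v v1 v2 v3 => not_lt.1 fun l =>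
          h.2.2 e he f hf ⟨fun _ => v, by omega, fun i hi => ⟨v1, by
            obtain rfl : i = 0 := by omega
            have := ho e he
            have := ho f hf
            rw [if_pos Even.zero]
            exact (⟨v2, by omega, v3, by omega, l⟩ : D.Lt e f v)⟩⟩
        have k2 : ∀ e ∈ F, ∀ f ∈ F, D.lo f ≤ D.lo e := fun e he f hf => not_lt.1 fun l => by
          have a := h.1 f hf
          have b := key e he f hf _ a l.le le_rfl
          have c := key f hf e he _ a le_rfl l.le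
          have := D.pm e _ l (by have := ho e he; omega)
          rw [D.z1] at b c
          omega
        have k3 := le_antisymm (k2 f hf e he) (k2 e he f hf)
        have := ho e he
        have := ho f hf
        exact h.2.1 e he f hf ⟨k3, by omega, fun v v1 v2 _ => le_antisymm
          (key f hf e he v v1 (k3 ▸ v2) v2) (key e he f hf v v1 v2 (k3 ▸ v2))⟩
      simp; omega
    · obtain ⟨R, G₁, G₂, r1, r2, g1, -, g2, g3, c⟩ := peel h
      have a := ih _ R r2 fun e he => by have := ho e (r1 he); omega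
      have b := ih _ G₁ g1 g2
      have : G₂ = ∅ := eq_empty_of_forall_notMem fun e he => by
        have := ho e (g3 e he).1
        have := (g3 e he).2
        omega
      rw [this, card_empty] at c
      rw [sum_range_succ'] at a ⊢
      simp only [Nat.choose_succ_succ', sum_add_distrib, Nat.choose_zero_right] at a ⊢
      omega

theorem gen (k n : ℕ) : ∀ F : Finset E, D.Ok n (k + 2) F →
    #F ≤ 4 * ∑ l ∈ range (k + 1), n.choose (l + 1) := by
  induction n with
  | zero =>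
    intro F h
    rw [eq_empty_of_forall_notMem fun e he => Nat.not_lt_zero _ (h.1 e he)]
    simp
  | succ n ih =>
    intro F h
    obtain ⟨R, G₁, G₂, -, r2, g1, g2, g3, g4, c⟩ := peel h
    have a := ih R r2
    have b := opn n k G₁ g1 g3
    have b' := opn n k G₂ g2 fun e he => (g4 e he).2.le
    simp only [Nat.choose_succ_succ', sum_add_distrib]
    omega

end Sys

end Pool.Agent.H.MP_6a261b_co
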