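import Pool.Agent.H.MP_6a261b_co.A

namespace Pool.Agent.H.MP_6a261b_co

open Set unitInterval

theorem graph (γ : C(I, ℝ × ℝ)) (hm : ∀ s t, (γ s).1 = (γ t).1 → γ s = γ t) :
    ∃ Y : C(ℝ, ℝ), ∀ t, Y (γ t).1 = (γ t).2 := by
  have : CompactSpace (range γ) := isCompact_iff_compactSpace.1 (isCompact_range γ.continuous)
  have he : Topology.IsClosedEmbedding fun z : range γ => z.1.1 :=
    Continuous.isClosedEmbedding (by fun_prop) (by
      rintro ⟨_, s, rfl⟩ ⟨_, t, rfl⟩ h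
      exact Subtype.ext (hm s t h))
  obtain ⟨Y, hY⟩ := ContinuousMap.exists_extension' he ⟨fun z => z.1.2, by fun_prop⟩
  exact ⟨Y, fun t => congrFun hY ⟨γ t, t, rfl⟩⟩

theorem rng {g : I → ℝ} (hg : Continuous g) (h0 : g 0 ≠ g 1)
    (h : ∀ t, t ≠ 0 → t ≠ 1 → g t ≠ g 0 ∧ g t ≠ g 1) (t : I) : g t ∈ uIcc (g 0) (g 1) := by
  by_contra hc
  have t0 : t ≠ 0 := fun e => hc (e ▸ left_mem_uIcc)
  have t1 : t ≠ 1 := fun e => hc (e ▸ right_mem_uIcc)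
  have : g 0 ∈ uIcc (g t) (g 1) ∨ g 1 ∈ uIcc (g 0) (g t) := by
    simp only [mem_uIcc] at hc ⊢
    grind
  rcases this with a | a
  · obtain ⟨s, s1, s2⟩ := intermediate_value_uIcc hg.continuousOn a
    rw [uIcc_of_le le_one'] at s1
    exact (h s (fun e => t0 (le_antisymm (e ▸ s1.1) nonneg')) fun e => h0 (e ▸ s2).symm).1 s2
  · obtain ⟨s, s1, s2⟩ := intermediate_value_uIcc hg.continuousOn a
    rw [uIcc_of_le nonneg'] at s1
    exact (h s (fun e => h0 (e ▸ s2)) fun e => t1 (le_antisymm le_one' (e ▸ s1.2))).2 s2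

theorem htpy (γ δ : C(I, ℝ × ℝ)) (Y Z : C(ℝ, ℝ)) (hY : ∀ t, Y (γ t).1 = (γ t).2)
    (hZ : ∀ t, Z (δ t).1 = (δ t).2) (h0 : δ 0 = γ 0) (h1 : δ 1 = γ 1) {a b : ℝ}
    (rγ : ∀ t, (γ t).1 ∈ Icc a b) (rδ : ∀ t, (δ t).1 ∈ Icc a b) :
    ∃ H : C(I × I, ℝ × ℝ), (∀ t, H (0, t) = γ t) ∧ (∀ t, H (1, t) = δ t) ∧
      (∀ τ, H (τ, 0) = γ 0 ∧ H (τ, 1) = γ 1) ∧ ∀ q : ℝ × ℝ, (q.1 ∈ Icc a b →
        (Y q.1 < q.2 ∧ Z q.1 < q.2) ∨ (q.2 < Y q.1 ∧ q.2 < Z q.1)) → ∀ z, H z ≠ q := by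
  refine ⟨⟨fun z => ((1 - z.1) * (γ z.2).1 + z.1 * (δ z.2).1,
    (1 - z.1) * Y ((1 - z.1) * (γ z.2).1 + z.1 * (δ z.2).1) +
      z.1 * Z ((1 - z.1) * (γ z.2).1 + z.1 * (δ z.2).1)), by fun_prop⟩, fun t => by simp [hY],
    fun t => by simp [hZ], fun τ => ?_, fun q hq z e => ?_⟩
  · have e : ∀ x : ℝ, (1 - τ) * x + τ * x = x := fun x => by ring
    have a0 := hZ 0
    have a1 := hZ 1
    rw [h0] at a0
    rw [h1] at a1
    simp [h0, h1, e, hY, a0, a1]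
  · have e1 := congrArg Prod.fst e
    have e2 := congrArg Prod.snd e
    simp only [ContinuousMap.coe_mk] at e1 e2
    rw [e1] at e2
    have p0 := z.1.2.1
    have p1 := sub_nonneg.2 z.1.2.2
    obtain ⟨c1, c2⟩ := rγ z.2
    obtain ⟨d1, d2⟩ := rδ z.2
    rcases hq ⟨by nlinarith, by nlinarith⟩ with ⟨u, v⟩ | ⟨u, v⟩
    · rcases le_total (Y q.1) (Z q.1) with w | w <;> nlinarith
    · rcases le_total (Y q.1) (Z q.1) with w | w <;> nlinarith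

theorem cross {Y Z : ℝ → ℝ} (hY : Continuous Y) (hZ : Continuous Z) {x y : ℝ} (hxy : x ≤ y)
    (h : (Y x < Z x ∧ Z y < Y y) ∨ (Z x < Y x ∧ Y y < Z y)) : ∃ z, x < z ∧ z < y ∧ Y z = Z z := by
  obtain ⟨z, z1, z2⟩ := intermediate_value_uIcc (a := x) (b := y) (hY.sub hZ).continuousOn
    (show (0 : ℝ) ∈ _ by
      simp only [mem_uIcc, Pi.sub_apply]
      rcases h with h | h
      · left; constructor <;> linarith [h.1, h.2]
      · right; constructor <;> linarith [h.1, h.2])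
  rw [uIcc_of_le hxy] at z1
  have z3 : Y z = Z z := sub_eq_zero.1 z2
  refine ⟨z, z1.1.lt_of_ne ?_, z1.2.lt_of_ne ?_, z3⟩ <;> rintro rfl <;> rcases h with h | h <;>
    linarith [h.1, h.2]

theorem srt {n : ℕ} (p : Fin n → ℝ × ℝ) : ∃ (pos : Fin n → ℕ) (q : ℕ → ℝ × ℝ),
    Function.Injective pos ∧ (∀ v, pos v < n ∧ q (pos v) = p v) ∧ (∀ i < n, ∃ v, pos v = i) ∧
      ∀ i j, i ≤ j → j < n → (q i).1 ≤ (q j).1 := by
  set π := Tuple.sort fun v => toLex (p v) with hπ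
  refine ⟨fun v => π.symm v, fun i => if h : i < n then p (π ⟨i, h⟩) else 0,
    fun v w h => π.symm.injective (Fin.ext h), fun v => ⟨(π.symm v).2, by simp⟩,
    fun i h => ⟨π ⟨i, h⟩, by simp⟩, fun i j h hj => ?_⟩
  simp only [dif_pos hj, dif_pos (h.trans_lt hj)]
  exact Prod.Lex.monotone_fst _ _
    (Tuple.monotone_sort (fun v => toLex (p v)) (show (⟨i, h.trans_lt hj⟩ : Fin n) ≤ ⟨j, hj⟩ from h))

noncomputable def sg (a b : ℝ) : ℤ := if a < b then 1 else if b < a then -1 else 0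

theorem sg_lt {a b c : ℝ} (h : sg a b < sg a c) : b < c := by
  unfold sg at h
  split_ifs at h <;> first | omega | linarith

theorem sg_eq {a b c : ℝ} (h : sg a b = sg a c) (hb : b ≠ a) : (b < a ∧ c < a) ∨ (a < b ∧ a < c) := by
  unfold sg at h
  split_ifs at h with h1 h2 h3 h4 h5 h6 h7 <;> first | omega | tauto |
    exact (hb (le_antisymm (not_lt.1 h1) (not_lt.1 h4))).elim

theorem sg_pm {a b : ℝ} (h : b ≠ a) : sg a b = 1 ∨ sg a b = -1 := by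
  unfold sg
  split_ifs with h1 h2
  · simp
  · simp
  · exact (h (le_antisymm (not_lt.1 h1) (not_lt.1 h2))).elim

end Pool.Agent.H.MP_6a261b_co
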